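import Pool.Agent.TH381.RM.Defs
import Pool.Agent.H539R2.Goto

/-!
GEN: a generating machine for words given by iterated `LS` functions.
-/

set_option autoImplicit false

namespace Pool.Agent.TH644.RM

open Pool.Agent.H584R2.Dg Pool.Agent.W614.Dg Pool.Agent.H539R2 Pool.Agent.TH381.RM

/-! ### Bits -/

theorem inc_bit (j : ℕ) : ∀ n : ℕ, (∀ i < j, n.testBit i = true) → n.testBit j = false →
    ∀ i, (n + 1).testBit i = if i < j then false else if i = j then true else n.testBit i := by
  induction j with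
  | zero =>
    intro n _ h0 i
    rw [Nat.testBit_zero] at h0
    have h1 : n % 2 = 0 := by
      have := of_decide_eq_false h0
      omega
    cases i with
    | zero =>
      rw [Nat.testBit_zero]
      simp only [lt_self_iff_false, if_false, if_true]
      apply decide_eq_true
      omega
    | succ i =>
      rw [Nat.testBit_succ, Nat.testBit_succ, show (n + 1) / 2 = n / 2 by omega]
      simp
  | succ j ih =>
    intro n h1 h2 i
    have h3 := h1 0 (by omega)
    rw [Nat.testBit_zero] at h3
    have h4 : n % 2 = 1 := of_decide_eq_true h3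
    rw [Nat.testBit_succ] at h2
    have h5 := ih (n / 2) (fun i hi => by
      have := h1 (i + 1) (by omega)
      rwa [Nat.testBit_succ] at this) h2
    cases i with
    | zero =>
      rw [Nat.testBit_zero]
      simp only [Nat.succ_pos, if_true, Nat.zero_lt_succ]
      apply decide_eq_false
      omega
    | succ i =>
      rw [Nat.testBit_succ, Nat.testBit_succ, show (n + 1) / 2 = n / 2 + 1 by omega, h5 i]
      simp only [Nat.add_lt_add_iff_right, Nat.add_right_cancel_iff]

theorem dec_bit (j : ℕ) : ∀ n : ℕ, (∀ i < j, n.testBit i = false) → n.testBit j = true →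
    ∀ i, (n - 1).testBit i = if i < j then true else if i = j then false else n.testBit i := by
  induction j with
  | zero =>
    intro n _ h0 i
    rw [Nat.testBit_zero] at h0
    have h1 : n % 2 = 1 := of_decide_eq_true h0
    cases i with
    | zero =>
      rw [Nat.testBit_zero]
      simp only [lt_self_iff_false, if_false, if_true]
      apply decide_eq_false
      omega
    | succ i =>
      rw [Nat.testBit_succ, Nat.testBit_succ, show (n - 1) / 2 = n / 2 by omega]
      simp
  | succ j ih =>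
    intro n h1 h2 i
    have h3 := h1 0 (by omega)
    rw [Nat.testBit_zero] at h3
    have h4 : n % 2 = 0 := by
      have := of_decide_eq_false h3
      omega
    rw [Nat.testBit_succ] at h2
    have h6 : n / 2 ≠ 0 := by
      intro h
      rw [h, Nat.zero_testBit] at h2
      exact absurd h2 (by decide)
    have h5 := ih (n / 2) (fun i hi => by
      have := h1 (i + 1) (by omega)
      rwa [Nat.testBit_succ] at this) h2
    cases i with
    | zero =>
      rw [Nat.testBit_zero]
      simp only [Nat.succ_pos, if_true, Nat.zero_lt_succ]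
      apply decide_eq_true
      omega
    | succ i =>
      rw [Nat.testBit_succ, Nat.testBit_succ, show (n - 1) / 2 = n / 2 - 1 by omega, h5 i]
      simp only [Nat.add_lt_add_iff_right, Nat.add_right_cancel_iff]

/-! ### The machine -/

abbrev Sy (K : ℕ) : Type := Option Bool × (Fin K → Bool)

abbrev Sta (m : ℕ) : Type := Option (Fin (m + 1) × Bool)

def fn (m p : ℕ) : Fin (m + 1) := ⟨min p m, by omega⟩

theorem fn_val {m p : ℕ} (h : p ≤ m) : (fn m p).val = p := min_eq_left h

def mk' : Option Bool → Option Bool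
  | none => some false
  | some b => some b

section mach

variable {S : Type} (m K : ℕ) (C : ℕ → Ins) (e : ℕ → Option S)

def act (p : Fin (m + 1)) (y : Sy K) : Ins → Sta m × (Sy K × Dir) × Option S
  | .inc r => if h : r < K then
      (if y.2 ⟨r, h⟩ = true then
        (some (p, true), ((y.1, Function.update y.2 ⟨r, h⟩ false), .right), none)
      else (some (fn m (p + 1), false), ((mk' y.1, Function.update y.2 ⟨r, h⟩ true), .stay), none))
      else (some (fn m (p + 1), true), (y, .stay), e (r - K))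
  | .dec r => if h : r < K then
      (if y.2 ⟨r, h⟩ = true then
        (some (fn m (p + 1), false), ((y.1, Function.update y.2 ⟨r, h⟩ false), .stay), none)
      else (some (p, true), ((y.1, Function.update y.2 ⟨r, h⟩ true), .right), none))
      else (some (p, true), (y, .stay), none)
  | .jz r t => if h : r < K then
      (if y.1 = none then (some (fn m t, false), (y, .stay), none)
      else if y.2 ⟨r, h⟩ = true then (some (fn m (p + 1), false), (y, .stay), none)
      else (some (p, true), (y, .right), none))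
      else (some (p, true), (y, .stay), none)
  | .jmp t => (some (fn m t, true), (y, .stay), none)

def d1 : Sta m → Sy K → Sta m × (Sy K × Dir) × Option S
  | none, y => (some (fn m 0, true), ((some true, y.2), .stay), none)
  | some (p, false), y => if y.1 = some true then (some (p, true), (y, .stay), none)
      else (some (p, false), (y, .left), none)
  | some (p, true), y => act m K e p y (C p)

abbrev bl : Sy K := (none, fun _ => false)

def mach : Machine 1 S where
  St := Sta m
  Sym := Sy K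
  finSt := inferInstance
  finSym := inferInstance
  start := none
  blank := bl K
  δ := fun s y => ((d1 m K C e s (y 0)).1, fun _ => (d1 m K C e s (y 0)).2.1,
    (d1 m K C e s (y 0)).2.2)

/-- a configuration -/
def mc (st : Sta m) (cell : ℕ → Sy K) (h : ℕ) (o : List S) : Cfg (mach m K C e) :=
  ⟨st, fun _ => ⟨cell, h⟩, o⟩

theorem step_mc (st : Sta m) (cell : ℕ → Sy K) (h : ℕ) (o : List S) :
    (mach m K C e).step (mc m K C e st cell h o) =
      mc m K C e (d1 m K C e st (cell h)).1
        (Function.update cell h (d1 m K C e st (cell h)).2.1.1)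
        ((d1 m K C e st (cell h)).2.1.2.move h)
        (o ++ (d1 m K C e st (cell h)).2.2.toList) := rfl

/-- the space is at most `Ub` -/
def Gd (Ub : ℕ) (c : Cfg (mach m K C e)) : Prop :=
  (c.tape 0).head ≤ Ub ∧ ∀ j, Ub ≤ j → (c.tape 0).cell j = bl K

def Rch (Ub : ℕ) (c c' : Cfg (mach m K C e)) : Prop :=
  ∃ t, (mach m K C e).step^[t] c = c' ∧ ∀ t' ≤ t, Gd m K C e Ub ((mach m K C e).step^[t'] c)

variable {m K C e}

theorem Rch.refl {Ub : ℕ} {c : Cfg (mach m K C e)} (h : Gd m K C e Ub c) :
    Rch m K C e Ub c c := ⟨0, rfl, fun t' ht => by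
      rw [Nat.le_zero.1 ht]
      exact h⟩

theorem Rch.trans {Ub : ℕ} {c c' c'' : Cfg (mach m K C e)} (h1 : Rch m K C e Ub c c')
    (h2 : Rch m K C e Ub c' c'') : Rch m K C e Ub c c'' := by
  obtain ⟨t1, e1, g1⟩ := h1
  obtain ⟨t2, e2, g2⟩ := h2
  refine ⟨t2 + t1, ?_, ?_⟩
  · rw [Function.iterate_add_apply, e1, e2]
  · intro t' ht
    rcases Nat.le_total t' t1 with h | h
    · exact g1 t' h
    · have : t' = (t' - t1) + t1 := by omega
      rw [this, Function.iterate_add_apply, e1]
      exact g2 _ (by omega)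

theorem Rch.one {Ub : ℕ} {c c' : Cfg (mach m K C e)} (h : Gd m K C e Ub c)
    (hs : (mach m K C e).step c = c') (h' : Gd m K C e Ub c') : Rch m K C e Ub c c' := by
  refine ⟨1, hs, ?_⟩
  intro t' ht
  interval_cases t'
  · exact h
  · show Gd m K C e Ub ((mach m K C e).step c)
    rw [hs]
    exact h'

theorem gd_mc {Ub : ℕ} {st : Sta m} {cell : ℕ → Sy K} {h : ℕ} {o : List S} (h1 : h ≤ Ub)
    (h2 : ∀ j, Ub ≤ j → cell j = bl K) : Gd m K C e Ub (mc m K C e st cell h o) := ⟨h1, h2⟩

/-- the way back -/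
theorem ret {Ub : ℕ} (p : Fin (m + 1)) (cell : ℕ → Sy K) (o : List S)
    (h0 : (cell 0).1 = some true) (h1 : ∀ j, 0 < j → (cell j).1 ≠ some true)
    (hb : ∀ j, Ub ≤ j → cell j = bl K) : ∀ h ≤ Ub,
      Rch m K C e Ub (mc m K C e (some (p, false)) cell h o)
        (mc m K C e (some (p, true)) cell 0 o) := by
  intro h
  induction h with
  | zero =>
    intro hh
    refine Rch.one (gd_mc hh hb) ?_ (gd_mc (Nat.zero_le _) hb)
    rw [step_mc]
    have : d1 m K C e (some (p, false)) (cell 0) = (some (p, true), (cell 0, .stay), none) := by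
      simp only [d1, h0, if_true]
    rw [this]
    simp [Function.update_eq_self, Dir.move]
  | succ h ih =>
    intro hh
    refine Rch.trans (Rch.one (gd_mc hh hb) ?_ (gd_mc (by omega) hb)) (ih (by omega))
    rw [step_mc]
    have : d1 m K C e (some (p, false)) (cell (h + 1)) =
        (some (p, false), (cell (h + 1), .left), none) := by
      simp only [d1, h1 (h + 1) (Nat.succ_pos h), if_false]
    rw [this]
    simp [Function.update_eq_self, Dir.move]

theorem scan {Ub : ℕ} (st : Sta m) (cell : ℕ → Sy K) (g : Sy K → Sy K) (o : List S)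
    (hb : ∀ j, Ub ≤ j → cell j = bl K) : ∀ i ≤ Ub,
    (∀ j < i, d1 m K C e st (cell j) = (st, (g (cell j), .right), none)) →
      Rch m K C e Ub (mc m K C e st cell 0 o)
        (mc m K C e st (fun j => if j < i then g (cell j) else cell j) i o) := by
  intro i
  induction i with
  | zero =>
    intro _ _
    simp only [Nat.not_lt_zero, if_false]
    exact Rch.refl (gd_mc (Nat.zero_le _) hb)
  | succ i ih =>
    intro hi hs
    have hb' : ∀ k ≤ Ub, ∀ j, Ub ≤ j → (if j < k then g (cell j) else cell j) = bl K := by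
      intro k hk j hj
      rw [if_neg (by omega)]
      exact hb j hj
    refine Rch.trans (ih (by omega) fun j hj => hs j (by omega))
      (Rch.one (gd_mc (by omega) (hb' i (by omega))) ?_ (gd_mc hi (hb' (i + 1) hi)))
    rw [step_mc]
    have h1 : (if i < i then g (cell i) else cell i) = cell i := if_neg (lt_irrefl i)
    rw [h1, hs i (by omega)]
    simp only [Dir.move, Option.toList_none, List.append_nil]
    congr 1
    funext j
    rw [Function.update_apply]
    by_cases h2 : j = i
    · subst h2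
      simp
    · rw [if_neg h2]
      by_cases h3 : j < i
      · rw [if_pos h3, if_pos (by omega)]
      · rw [if_neg h3, if_neg (by omega)]

theorem go {Ub : ℕ} (p q : Fin (m + 1)) (cell cell' : ℕ → Sy K) (g : Sy K → Sy K) (w : Sy K)
    (i : ℕ) (o : List S) (hb : ∀ j, Ub ≤ j → cell j = bl K) (hi : i ≤ Ub)
    (hs : ∀ j < i, d1 m K C e (some (p, true)) (cell j) =
      (some (p, true), (g (cell j), .right), none))
    (ht : d1 m K C e (some (p, true)) (cell i) = (some (q, false), (w, .stay), none))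
    (hc : ∀ j, cell' j = if j < i then g (cell j) else if j = i then w else cell j)
    (hb' : ∀ j, Ub ≤ j → cell' j = bl K)
    (h0 : (cell' 0).1 = some true) (h1 : ∀ j, 0 < j → (cell' j).1 ≠ some true) :
    Rch m K C e Ub (mc m K C e (some (p, true)) cell 0 o)
      (mc m K C e (some (q, true)) cell' 0 o) := by
  refine Rch.trans (scan (some (p, true)) cell g o hb i hi hs) ?_
  refine Rch.trans (Rch.one (gd_mc hi ?_) ?_ (gd_mc hi hb')) (ret q cell' o h0 h1 hb' i hi)
  · intro j hj
    rw [if_neg (by omega)]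
    exact hb j hj
  · rw [step_mc]
    have h1 : (if i < i then g (cell i) else cell i) = cell i := if_neg (lt_irrefl i)
    rw [h1, ht]
    simp only [Dir.move, Option.toList_none, List.append_nil]
    congr 1
    funext j
    rw [Function.update_apply, hc j]
    by_cases h2 : j = i
    · subst h2
      simp
    · rw [if_neg h2, if_neg h2]

end mach

/-- the code without emissions -/
def cut (K : ℕ) (C : ℕ → Ins) (i : ℕ) : Ins := if (C i).reg < K then C i else .jmp i

/-- the tape -/
def enc (K : ℕ) (σ : ℕ → ℕ) (U : ℕ) (j : ℕ) : Sy K :=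
  (if j < U then some (decide (j = 0)) else none, fun r => (σ r).testBit j)

section sim

variable {S : Type} {m K : ℕ} {C : ℕ → Ins} {e : ℕ → Option S}

theorem enc_bl {σ : ℕ → ℕ} {U : ℕ} (hσ : ∀ r < K, σ r < 2 ^ U) {j : ℕ} (hj : U ≤ j) :
    enc K σ U j = bl K := by
  unfold enc bl
  rw [if_neg (by omega)]
  congr 1
  funext r
  exact Nat.testBit_lt_two_pow ((hσ r r.2).trans_le (Nat.pow_le_pow_right (by omega) hj))

theorem enc_zero {σ : ℕ → ℕ} {U : ℕ} (hU : 1 ≤ U) : (enc K σ U 0).1 = some true := by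
  unfold enc
  simp [Nat.lt_of_lt_of_le Nat.zero_lt_one hU]

theorem enc_pos {σ : ℕ → ℕ} {U : ℕ} (j : ℕ) (hj : 0 < j) : (enc K σ U j).1 ≠ some true := by
  unfold enc
  have : decide (j = 0) = false := decide_eq_false (by omega)
  simp only [this]
  split_ifs <;> simp

variable (m K C e) in
/-- the configuration for a state of the register machine -/
def stt (pc : ℕ) (σ : ℕ → ℕ) (U : ℕ) (o : List S) : Cfg (mach m K C e) :=
  mc m K C e (some (fn m pc, true)) (enc K σ U) 0 o

theorem gd_stt {Ub : ℕ} {pc : ℕ} {σ : ℕ → ℕ} {U : ℕ} {o : List S} (hU : U ≤ Ub)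
    (hσ : ∀ r < K, σ r < 2 ^ U) : Gd m K C e Ub (stt m K C e pc σ U o) :=
  gd_mc (Nat.zero_le _) fun _ hj => enc_bl hσ (hU.trans hj)

theorem d1_eq {pc : ℕ} (hpc : pc ≤ m) (y : Sy K) :
    d1 m K C e (some (fn m pc, true)) y = act m K e (fn m pc) y (C pc) := by
  show act m K e (fn m pc) y (C (fn m pc : Fin (m + 1)).val) = _
  rw [fn_val hpc]

theorem sim_inc {Ub pc r U : ℕ} {σ : ℕ → ℕ} (hC : C pc = .inc r) (hr : r < K) (hM : pc + 1 ≤ m)
    {N : ℕ} (hN : N < 2 ^ Ub) (h : σ r + 1 ≤ N) (hU1 : 1 ≤ U) (hU : U ≤ Ub)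
    (hσ : ∀ r < K, σ r < 2 ^ U) (o : List S) :
    ∃ U', 1 ≤ U' ∧ U' ≤ Ub ∧ (∀ r' < K, Function.update σ r (σ r + 1) r' < 2 ^ U') ∧
      Rch m K C e Ub (stt m K C e pc σ U o)
        (stt m K C e (pc + 1) (Function.update σ r (σ r + 1)) U' o) := by
  classical
  have hex : ∃ i, (σ r).testBit i = false := ⟨U, Nat.testBit_lt_two_pow (hσ r hr)⟩
  obtain ⟨i, hi1, hi2⟩ : ∃ i, (σ r).testBit i = false ∧ ∀ j < i, (σ r).testBit j = true := by
    refine ⟨Nat.find hex, Nat.find_spec hex, ?_⟩
    intro j hj
    have := Nat.find_min hex hj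
    simpa using this
  have hiU : i ≤ U := by
    by_contra hcon
    have := hi2 U (by omega)
    rw [Nat.testBit_lt_two_pow (hσ r hr)] at this
    exact absurd this (by decide)
  have hbit := inc_bit i (σ r) hi2 hi1
  have hU'Ub : max U (i + 1) ≤ Ub := by
    apply max_le hU
    by_contra hcon
    have h1 : i = U := by omega
    have h2 : σ r + 1 < 2 ^ i := by
      rw [h1]
      exact h.trans_lt (hN.trans_le (Nat.pow_le_pow_right (by omega) (by omega)))
    have h3 := hbit i
    rw [Nat.testBit_lt_two_pow h2] at h3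
    simp at h3
  have hσ' : ∀ r' < K, Function.update σ r (σ r + 1) r' < 2 ^ (max U (i + 1)) := by
    intro r' hr'
    rw [Function.update_apply]
    split_ifs with hrr
    · apply Nat.lt_pow_two_of_testBit
      intro j hj
      have h1 : U ≤ j := (le_max_left _ _).trans hj
      have h2 : i + 1 ≤ j := (le_max_right _ _).trans hj
      rw [hbit j, if_neg (by omega), if_neg (by omega)]
      exact Nat.testBit_lt_two_pow ((hσ r hr).trans_le (Nat.pow_le_pow_right (by omega) h1))
    · exact (hσ r' hr').trans_le (Nat.pow_le_pow_right (by omega) (le_max_left _ _))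
  refine ⟨max U (i + 1), by omega, hU'Ub, hσ', ?_⟩
  refine go (fn m pc) (fn m (pc + 1)) (enc K σ U) _
    (fun y => (y.1, Function.update y.2 ⟨r, hr⟩ false))
    (mk' (enc K σ U i).1, Function.update (enc K σ U i).2 ⟨r, hr⟩ true) i o
    (fun j hj => enc_bl hσ (hU.trans hj)) (hiU.trans hU) ?_ ?_ ?_
    (fun j hj => enc_bl hσ' (hU'Ub.trans hj)) (enc_zero (by omega)) enc_pos
  · intro j hj
    rw [d1_eq (by omega), hC]
    have : (enc K σ U j).2 ⟨r, hr⟩ = true := hi2 j hj
    simp only [act, dif_pos hr, this, if_true]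
  · rw [d1_eq (by omega), hC]
    have : ¬ (enc K σ U i).2 ⟨r, hr⟩ = true := by
      show ¬ (σ r).testBit i = true
      rw [hi1]
      decide
    simp only [act, dif_pos hr, if_neg this, fn_val (show pc ≤ m by omega)]
  · intro j
    have key : ∀ r' : Fin K, (enc K (Function.update σ r (σ r + 1)) (max U (i + 1)) j).2 r' =
        if r' = ⟨r, hr⟩ then (if j < i then false else if j = i then true else (σ r).testBit j)
          else (σ r').testBit j := by
      intro r'
      show (Function.update σ r (σ r + 1) r').testBit j = _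
      rw [Function.update_apply]
      by_cases hrr : r' = ⟨r, hr⟩
      · have h2 : (r' : ℕ) = r := by rw [hrr]
        rw [if_pos hrr, if_pos h2, hbit j]
      · have h2 : ¬ (r' : ℕ) = r := fun h => hrr (Fin.ext h)
        rw [if_neg hrr, if_neg h2]
    by_cases h1 : j < i
    · rw [if_pos h1]
      apply Prod.ext
      · show (if j < max U (i + 1) then some (decide (j = 0)) else none) =
          (if j < U then some (decide (j = 0)) else none)
        rw [if_pos (by omega), if_pos (by omega)]
      · funext r'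
        rw [key r', if_pos h1]
        show _ = Function.update (enc K σ U j).2 ⟨r, hr⟩ false r'
        rw [Function.update_apply]
        rfl
    · rw [if_neg h1]
      by_cases h2 : j = i
      · rw [if_pos h2]
        subst h2
        apply Prod.ext
        · show (if j < max U (j + 1) then some (decide (j = 0)) else none) =
            mk' (if j < U then some (decide (j = 0)) else none)
          rw [if_pos (by omega)]
          by_cases h3 : j < U
          · rw [if_pos h3]
            rfl
          · rw [if_neg h3]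
            have : decide (j = 0) = false := decide_eq_false (by omega)
            rw [this]
            rfl
        · funext r'
          rw [key r', if_neg h1, if_pos rfl]
          show _ = Function.update (enc K σ U j).2 ⟨r, hr⟩ true r'
          rw [Function.update_apply]
          rfl
      · rw [if_neg h2]
        apply Prod.ext
        · show (if j < max U (i + 1) then some (decide (j = 0)) else none) =
            (if j < U then some (decide (j = 0)) else none)
          by_cases h3 : j < U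
          · rw [if_pos (by omega), if_pos h3]
          · rw [if_neg (by omega), if_neg h3]
        · funext r'
          rw [key r', if_neg h1, if_neg h2]
          show _ = (σ r').testBit j
          split_ifs with h3
          · have h4 : (r' : ℕ) = r := by rw [h3]
            rw [h4]
          · rfl

theorem sim_dec {Ub pc r U : ℕ} {σ : ℕ → ℕ} (hC : C pc = .dec r) (hr : r < K) (hM : pc + 1 ≤ m)
    (h : σ r ≠ 0) (hU1 : 1 ≤ U) (hU : U ≤ Ub)
    (hσ : ∀ r < K, σ r < 2 ^ U) (o : List S) :
    ∃ U', 1 ≤ U' ∧ U' ≤ Ub ∧ (∀ r' < K, Function.update σ r (σ r - 1) r' < 2 ^ U') ∧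
      Rch m K C e Ub (stt m K C e pc σ U o)
        (stt m K C e (pc + 1) (Function.update σ r (σ r - 1)) U' o) := by
  classical
  have hex : ∃ i, (σ r).testBit i = true := Nat.exists_testBit_of_ne_zero h
  obtain ⟨i, hi1, hi2⟩ : ∃ i, (σ r).testBit i = true ∧ ∀ j < i, (σ r).testBit j = false := by
    refine ⟨Nat.find hex, Nat.find_spec hex, ?_⟩
    intro j hj
    have := Nat.find_min hex hj
    simpa using this
  have hiU : i < U := by
    by_contra hcon
    have : (σ r).testBit i = false := Nat.testBit_lt_two_pow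
      ((hσ r hr).trans_le (Nat.pow_le_pow_right (by omega) (by omega)))
    rw [hi1] at this
    exact absurd this (by decide)
  have hbit := dec_bit i (σ r) hi2 hi1
  have hσ' : ∀ r' < K, Function.update σ r (σ r - 1) r' < 2 ^ U := by
    intro r' hr'
    rw [Function.update_apply]
    split_ifs with hrr
    · exact (Nat.sub_le _ _).trans_lt (hσ r hr)
    · exact hσ r' hr'
  refine ⟨U, hU1, hU, hσ', ?_⟩
  refine go (fn m pc) (fn m (pc + 1)) (enc K σ U) _
    (fun y => (y.1, Function.update y.2 ⟨r, hr⟩ true))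
    ((enc K σ U i).1, Function.update (enc K σ U i).2 ⟨r, hr⟩ false) i o
    (fun j hj => enc_bl hσ (hU.trans hj)) (hiU.le.trans hU) ?_ ?_ ?_
    (fun j hj => enc_bl hσ' (hU.trans hj)) (enc_zero (by omega)) enc_pos
  · intro j hj
    rw [d1_eq (by omega), hC]
    have : ¬ (enc K σ U j).2 ⟨r, hr⟩ = true := by
      show ¬ (σ r).testBit j = true
      rw [hi2 j hj]
      decide
    simp only [act, dif_pos hr, if_neg this]
  · rw [d1_eq (by omega), hC]
    have : (enc K σ U i).2 ⟨r, hr⟩ = true := hi1
    simp only [act, dif_pos hr, if_pos this, fn_val (show pc ≤ m by omega)]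
  · intro j
    have key : ∀ r' : Fin K, (enc K (Function.update σ r (σ r - 1)) U j).2 r' =
        if r' = ⟨r, hr⟩ then (if j < i then true else if j = i then false else (σ r).testBit j)
          else (σ r').testBit j := by
      intro r'
      show (Function.update σ r (σ r - 1) r').testBit j = _
      rw [Function.update_apply]
      by_cases hrr : r' = ⟨r, hr⟩
      · have h2 : (r' : ℕ) = r := by rw [hrr]
        rw [if_pos hrr, if_pos h2, hbit j]
      · have h2 : ¬ (r' : ℕ) = r := fun h => hrr (Fin.ext h)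
        rw [if_neg hrr, if_neg h2]
    by_cases h1 : j < i
    · rw [if_pos h1]
      apply Prod.ext
      · rfl
      · funext r'
        rw [key r', if_pos h1]
        show _ = Function.update (enc K σ U j).2 ⟨r, hr⟩ true r'
        rw [Function.update_apply]
        rfl
    · rw [if_neg h1]
      by_cases h2 : j = i
      · rw [if_pos h2]
        subst h2
        apply Prod.ext
        · rfl
        · funext r'
          rw [key r', if_neg h1, if_pos rfl]
          show _ = Function.update (enc K σ U j).2 ⟨r, hr⟩ false r'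
          rw [Function.update_apply]
          rfl
      · rw [if_neg h2]
        apply Prod.ext
        · rfl
        · funext r'
          rw [key r', if_neg h1, if_neg h2]
          show _ = (σ r').testBit j
          split_ifs with h3
          · have h4 : (r' : ℕ) = r := by rw [h3]
            rw [h4]
          · rfl

theorem sim_jzz {Ub pc r t U : ℕ} {σ : ℕ → ℕ} (hC : C pc = .jz r t) (hr : r < K) (hM : pc ≤ m)
    (h : σ r = 0) (hU1 : 1 ≤ U) (hU : U ≤ Ub)
    (hσ : ∀ r < K, σ r < 2 ^ U) (o : List S) :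
    Rch m K C e Ub (stt m K C e pc σ U o) (stt m K C e t σ U o) := by
  refine go (fn m pc) (fn m t) (enc K σ U) _ id (enc K σ U U) U o
    (fun j hj => enc_bl hσ (hU.trans hj)) hU ?_ ?_ ?_
    (fun j hj => enc_bl hσ (hU.trans hj)) (enc_zero (by omega)) enc_pos
  · intro j hj
    rw [d1_eq (by omega), hC]
    have h1 : ¬ (enc K σ U j).2 ⟨r, hr⟩ = true := by
      show ¬ (σ r).testBit j = true
      rw [h, Nat.zero_testBit]
      decide
    have h2 : ¬ (enc K σ U j).1 = none := by
      show ¬ (if j < U then some (decide (j = 0)) else none) = none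
      rw [if_pos hj]
      simp
    simp only [act, dif_pos hr, if_neg h1, if_neg h2]
    rfl
  · rw [d1_eq (by omega), hC]
    have h2 : (enc K σ U U).1 = none := by
      show (if U < U then some (decide (U = 0)) else none) = none
      rw [if_neg (by omega)]
    simp only [act, dif_pos hr, if_pos h2]
  · intro j
    split_ifs with h1 h2
    · rfl
    · rw [h2]
    · rfl

theorem sim_jzn {Ub pc r t U : ℕ} {σ : ℕ → ℕ} (hC : C pc = .jz r t) (hr : r < K)
    (hM : pc + 1 ≤ m) (h : σ r ≠ 0) (hU1 : 1 ≤ U) (hU : U ≤ Ub)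
    (hσ : ∀ r < K, σ r < 2 ^ U) (o : List S) :
    Rch m K C e Ub (stt m K C e pc σ U o) (stt m K C e (pc + 1) σ U o) := by
  classical
  have hex : ∃ i, (σ r).testBit i = true := Nat.exists_testBit_of_ne_zero h
  obtain ⟨i, hi1, hi2⟩ : ∃ i, (σ r).testBit i = true ∧ ∀ j < i, (σ r).testBit j = false := by
    refine ⟨Nat.find hex, Nat.find_spec hex, ?_⟩
    intro j hj
    have := Nat.find_min hex hj
    simpa using this
  have hiU : i < U := by
    by_contra hcon
    have : (σ r).testBit i = false := Nat.testBit_lt_two_pow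
      ((hσ r hr).trans_le (Nat.pow_le_pow_right (by omega) (by omega)))
    rw [hi1] at this
    exact absurd this (by decide)
  have hsome : ∀ j < U, ¬ (enc K σ U j).1 = none := by
    intro j hj
    show ¬ (if j < U then some (decide (j = 0)) else none) = none
    rw [if_pos hj]
    simp
  refine go (fn m pc) (fn m (pc + 1)) (enc K σ U) _ id (enc K σ U i) i o
    (fun j hj => enc_bl hσ (hU.trans hj)) (hiU.le.trans hU) ?_ ?_ ?_
    (fun j hj => enc_bl hσ (hU.trans hj)) (enc_zero (by omega)) enc_pos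
  · intro j hj
    rw [d1_eq (by omega), hC]
    have h1 : ¬ (enc K σ U j).2 ⟨r, hr⟩ = true := by
      show ¬ (σ r).testBit j = true
      rw [hi2 j hj]
      decide
    simp only [act, dif_pos hr, if_neg h1, if_neg (hsome j (by omega))]
    rfl
  · rw [d1_eq (by omega), hC]
    have h1 : (enc K σ U i).2 ⟨r, hr⟩ = true := hi1
    simp only [act, dif_pos hr, if_pos h1, if_neg (hsome i hiU), fn_val (show pc ≤ m by omega)]
  · intro j
    split_ifs with h1 h2
    · rfl
    · rw [h2]
    · rfl

theorem stay {Ub : ℕ} {st st' : Sta m} {cell : ℕ → Sy K} {o : List S} {w : Option S}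
    (hb : ∀ j, Ub ≤ j → cell j = bl K)
    (h : d1 m K C e st (cell 0) = (st', (cell 0, .stay), w)) :
    Rch m K C e Ub (mc m K C e st cell 0 o) (mc m K C e st' cell 0 (o ++ w.toList)) := by
  refine Rch.one (gd_mc (Nat.zero_le _) hb) ?_ (gd_mc (Nat.zero_le _) hb)
  rw [step_mc, h]
  simp [Function.update_eq_self, Dir.move]

theorem sim_jmp {Ub pc t U : ℕ} {σ : ℕ → ℕ} (hC : C pc = .jmp t) (hM : pc ≤ m) (hU : U ≤ Ub)
    (hσ : ∀ r < K, σ r < 2 ^ U) (o : List S) :
    Rch m K C e Ub (stt m K C e pc σ U o) (stt m K C e t σ U o) := by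
  have := stay (m := m) (C := C) (e := e) (st := some (fn m pc, true))
    (st' := some (fn m t, true)) (cell := enc K σ U) (o := o)
    (w := none) (fun j hj => enc_bl hσ (hU.trans hj)) (by rw [d1_eq (by omega), hC]; rfl)
  rw [Option.toList_none, List.append_nil] at this
  exact this

theorem sim_emit {Ub pc c U : ℕ} {σ : ℕ → ℕ} (hC : C pc = .inc (K + c)) (hM : pc ≤ m)
    (hU : U ≤ Ub) (hσ : ∀ r < K, σ r < 2 ^ U) (o : List S) :
    Rch m K C e Ub (stt m K C e pc σ U o) (stt m K C e (pc + 1) σ U (o ++ (e c).toList)) := by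
  refine stay (m := m) (C := C) (e := e) (st := some (fn m pc, true))
    (st' := some (fn m (pc + 1), true)) (cell := enc K σ U) (o := o)
    (fun j hj => enc_bl hσ (hU.trans hj)) ?_
  rw [d1_eq (by omega), hC]
  simp only [act, dif_neg (show ¬ K + c < K by omega), Nat.add_sub_cancel_left, fn_val hM]

theorem sim_step {Ub N pc pc' U : ℕ} {σ σ' : ℕ → ℕ} (hN : N < 2 ^ Ub)
    (h : GStep m N (cut K C) pc σ pc' σ') (hU1 : 1 ≤ U) (hU : U ≤ Ub)
    (hσ : ∀ r < K, σ r < 2 ^ U) (o : List S) :
    ∃ U', 1 ≤ U' ∧ U' ≤ Ub ∧ (∀ r' < K, σ' r' < 2 ^ U') ∧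
      Rch m K C e Ub (stt m K C e pc σ U o) (stt m K C e pc' σ' U' o) := by
  by_cases hreg : (C pc).reg < K
  · have hcut : cut K C pc = C pc := if_pos hreg
    cases h with
    | inc hC hM h =>
      rw [hcut] at hC
      rw [hC] at hreg
      exact sim_inc hC hreg hM hN h hU1 hU hσ o
    | dec hC hM h =>
      rw [hcut] at hC
      rw [hC] at hreg
      exact sim_dec hC hreg hM h hU1 hU hσ o
    | jzz hC hM hM' h =>
      rw [hcut] at hC
      rw [hC] at hreg
      exact ⟨U, hU1, hU, hσ, sim_jzz hC hreg hM h hU1 hU hσ o⟩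
    | jzn hC hM h =>
      rw [hcut] at hC
      rw [hC] at hreg
      exact ⟨U, hU1, hU, hσ, sim_jzn hC hreg hM h hU1 hU hσ o⟩
    | jmp hC hM hM' =>
      rw [hcut] at hC
      exact ⟨U, hU1, hU, hσ, sim_jmp hC hM hU hσ o⟩
  · have hcut : cut K C pc = .jmp pc := if_neg hreg
    cases h with
    | inc hC hM h => rw [hcut] at hC; exact absurd hC (by simp)
    | dec hC hM h => rw [hcut] at hC; exact absurd hC (by simp)
    | jzz hC hM hM' h => rw [hcut] at hC; exact absurd hC (by simp)
    | jzn hC hM h => rw [hcut] at hC; exact absurd hC (by simp)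
    | jmp hC hM hM' =>
      rw [hcut] at hC
      injection hC with hC
      rw [← hC]
      exact ⟨U, hU1, hU, hσ, Rch.refl (gd_stt hU hσ)⟩

theorem sim_steps {Ub N pc pc' U : ℕ} {σ σ' : ℕ → ℕ} (hN : N < 2 ^ Ub)
    (h : GSteps m N (cut K C) pc σ pc' σ') (hU1 : 1 ≤ U) (hU : U ≤ Ub)
    (hσ : ∀ r < K, σ r < 2 ^ U) (o : List S) :
    ∃ U', 1 ≤ U' ∧ U' ≤ Ub ∧ (∀ r' < K, σ' r' < 2 ^ U') ∧
      Rch m K C e Ub (stt m K C e pc σ U o) (stt m K C e pc' σ' U' o) := by
  induction h with
  | refl => exact ⟨U, hU1, hU, hσ, Rch.refl (gd_stt hU hσ)⟩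
  | tail _ h ih =>
    obtain ⟨U1, h1, h2, h3, h4⟩ := ih hσ
    obtain ⟨U2, k1, k2, k3, k4⟩ := sim_step hN h h1 h2 h3 o
    exact ⟨U2, k1, k2, k3, h4.trans k4⟩

end sim

/-- a bound for the registers of a program -/
def rb : Prg → ℕ
  | .skip => 1
  | .inc r => r + 1
  | .dec r => r + 1
  | .seq p q => max (rb p) (rb q)
  | .wh r p => max (r + 1) (rb p)

theorem rb_pos : ∀ p, 1 ≤ rb p
  | .skip => le_rfl
  | .inc _ => Nat.succ_le_succ (Nat.zero_le _)
  | .dec _ => Nat.succ_le_succ (Nat.zero_le _)
  | .seq p _ => (rb_pos p).trans (le_max_left _ _)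
  | .wh _ p => (rb_pos p).trans (le_max_right _ _)

theorem comp_reg (p : Prg) : ∀ a, ∀ x ∈ comp p a, x.reg < rb p := by
  induction p with
  | skip => intro a x hx; simp [comp] at hx
  | inc r => intro a x hx; simp only [comp, List.mem_singleton] at hx; subst hx; simp [Ins.reg, rb]
  | dec r => intro a x hx; simp only [comp, List.mem_singleton] at hx; subst hx; simp [Ins.reg, rb]
  | seq p q ih1 ih2 =>
    intro a x hx
    simp only [comp, List.mem_append] at hx
    rcases hx with hx | hx
    · exact (ih1 _ x hx).trans_le (le_max_left _ _)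
    · exact (ih2 _ x hx).trans_le (le_max_right _ _)
  | wh r p ih =>
    intro a x hx
    simp only [comp, List.mem_cons, List.mem_append, List.not_mem_nil, or_false] at hx
    rcases hx with hx | hx | hx
    · subst hx
      show r < max (r + 1) (rb p)
      exact (Nat.lt_succ_self r).trans_le (le_max_left _ _)
    · exact (ih _ x hx).trans_le (le_max_right _ _)
    · subst hx
      show 0 < max (r + 1) (rb p)
      exact (Nat.succ_pos r).trans_le (le_max_left _ _)

theorem at_cut {K : ℕ} {C : ℕ → Ins} {a : ℕ} {l : List Ins} (h : At C a l)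
    (hl : ∀ x ∈ l, x.reg < K) : At (cut K C) a l := by
  intro i hi
  have h1 := h i hi
  show (if (C (a + i)).reg < K then C (a + i) else .jmp (a + i)) = l[i]
  rw [h1, if_pos (hl _ (List.getElem_mem hi))]

section code

variable {S : Type} {m K : ℕ} {C : ℕ → Ins} {e : ℕ → Option S}

/-- a program -/
theorem sim_prg {Ub N a U : ℕ} {p : Prg} {σ σ' : ℕ → ℕ} (hN : N < 2 ^ Ub)
    (h : Run N p σ σ') (hA : At C a (comp p a)) (hM : a + (comp p a).length ≤ m)
    (hK : rb p ≤ K) (hU1 : 1 ≤ U) (hU : U ≤ Ub)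
    (hσ : ∀ r < K, σ r < 2 ^ U) (o : List S) :
    ∃ U', 1 ≤ U' ∧ U' ≤ Ub ∧ (∀ r' < K, σ' r' < 2 ^ U') ∧
      Rch m K C e Ub (stt m K C e a σ U o) (stt m K C e (a + (comp p a).length) σ' U' o) :=
  sim_steps hN (comp_sound h a
    (at_cut hA fun x hx => (comp_reg p a x hx).trans_le hK) hM) hU1 hU hσ o

/-- the registers with the state `z` -/
def sg (z : ℕ) : ℕ → ℕ := Function.update (fun _ => 0) 0 z

theorem sg_zero (z : ℕ) : sg z 0 = z := by simp [sg]

theorem sg_pos (z r : ℕ) (hr : r ≠ 0) : sg z r = 0 := by simp [sg, hr]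

theorem sg_up (z : ℕ) : Function.update (sg z) 1 0 = sg z := by
  funext r
  rw [Function.update_apply]
  split_ifs with h
  · rw [h, sg_pos z 1 (by omega)]
  · rfl

variable (K) in
/-- the output part -/
def seg (P : ℕ → Prg) : ℕ → ℕ → List Ins
  | 0, _ => []
  | n + 1, a => seg P n a ++ (comp (P n) (a + (seg P n a).length) ++
      [.jz 1 (a + (seg P n a).length + (comp (P n) (a + (seg P n a).length)).length + 3),
        .dec 1, .inc (K + n)])

theorem sim_seg {P : ℕ → Prg} {L : ℕ → ℕ} {Nv Ub z : ℕ} (hNv : Nv < 2 ^ Ub)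
    (a : ℕ) (hK2 : 2 ≤ K) (o : List S) : ∀ n,
    (∀ i < n, rb (P i) ≤ K) →
    (∀ i < n, Run Nv (P i) (sg z) (Function.update (sg z) 1 (if L z = i then 1 else 0))) →
    At C a (seg K P n a) → a + (seg K P n a).length ≤ m →
    ∀ U, 1 ≤ U → U ≤ Ub → (∀ r < K, sg z r < 2 ^ U) →
    ∃ U', 1 ≤ U' ∧ U' ≤ Ub ∧ (∀ r' < K, sg z r' < 2 ^ U') ∧
      Rch m K C e Ub (stt m K C e a (sg z) U o)
        (stt m K C e (a + (seg K P n a).length) (sg z) U'
          (o ++ if L z < n then (e (L z)).toList else [])) := by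
  intro n
  induction n with
  | zero =>
    intro _ _ _ _ U hU1 hU hσ
    refine ⟨U, hU1, hU, hσ, ?_⟩
    rw [if_neg (Nat.not_lt_zero _), List.append_nil]
    exact Rch.refl (gd_stt hU hσ)
  | succ n ih =>
    intro hrb hrun hA hM U hU1 hU hσ
    obtain ⟨b, hb⟩ : ∃ b, b = a + (seg K P n a).length := ⟨_, rfl⟩
    obtain ⟨q, hq⟩ : ∃ q, q = b + (comp (P n) b).length := ⟨_, rfl⟩
    have hseg : seg K P (n + 1) a = seg K P n a ++ (comp (P n) b ++
      [.jz 1 (q + 3), .dec 1, .inc (K + n)]) := by
      rw [hq, hb]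
      rfl
    have hlen : a + (seg K P (n + 1) a).length = q + 3 := by
      rw [hseg, List.length_append, List.length_append, hq, hb]
      simp only [List.length_cons, List.length_nil]
      omega
    rw [hlen] at hM ⊢
    rw [hseg] at hA
    have hA1 := hA.left
    have hA2 := hA.right
    rw [← hb] at hA2
    have hA3 := hA2.left
    have hA4 := hA2.right
    rw [← hq] at hA4
    have hC1 := hA4.head
    have hC2 := hA4.tail.head
    have hC3 := hA4.tail.tail.head
    obtain ⟨U1, k1, k2, k3, k4⟩ := ih (fun i hi => hrb i (by omega))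
      (fun i hi => hrun i (by omega)) hA1 (by omega) U hU1 hU hσ
    rw [← hb] at k4
    obtain ⟨o1, ho1⟩ : ∃ o1, o1 = o ++ if L z < n then (e (L z)).toList else [] := ⟨_, rfl⟩
    rw [← ho1] at k4
    obtain ⟨U2, l1, l2, l3, l4⟩ := sim_prg (m := m) (e := e) hNv (hrun n (by omega)) hA3 (by omega)
      (hrb n (by omega)) k1 k2 k3 o1
    rw [← hq] at l4
    by_cases hLn : L z = n
    · rw [if_pos hLn] at l3 l4
      have hne : Function.update (sg z) 1 1 1 ≠ 0 := by simp
      have m1 := sim_jzn (m := m) (e := e) hC1 (by omega : 1 < K) (by omega) hne l1 l2 l3 o1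
      obtain ⟨U3, n1, n2, n3, n4⟩ := sim_dec (m := m) (e := e) hC2 (by omega : 1 < K) (by omega) hne
        l1 l2 l3 o1
      have hup : Function.update (Function.update (sg z) 1 1) 1
          (Function.update (sg z) 1 1 1 - 1) = sg z := by
        rw [Function.update_self, Function.update_idem]
        exact sg_up z
      rw [hup] at n3 n4
      have m2 := sim_emit (m := m) (e := e) (K := K) hC3 (by omega) n2 n3 o1
      refine ⟨U3, n1, n2, n3, ?_⟩
      have hout : o ++ (if L z < n + 1 then (e (L z)).toList else []) = o1 ++ (e n).toList := by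
        rw [ho1, if_neg (show ¬ L z < n by omega), if_pos (show L z < n + 1 by omega), hLn,
          List.append_nil]
      rw [hout]
      exact k4.trans (l4.trans (m1.trans (n4.trans m2)))
    · rw [if_neg hLn, sg_up] at l3 l4
      have m1 := sim_jzz (m := m) (e := e) hC1 (by omega : 1 < K) (by omega) (sg_pos z 1 (by omega))
        l1 l2 l3 o1
      refine ⟨U2, l1, l2, l3, ?_⟩
      have hout : o ++ (if L z < n + 1 then (e (L z)).toList else []) = o1 := by
        rw [ho1]
        congr 1
        by_cases h1 : L z < n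
        · rw [if_pos h1, if_pos (show L z < n + 1 by omega)]
        · rw [if_neg h1, if_neg (show ¬ L z < n + 1 by omega)]
      rw [hout]
      exact k4.trans (l4.trans m1)

/-- the update part -/
def nxt (p : Prg) : Prg := .seq p (.seq (clr 0) (mv 1 0))

theorem run_nxt {p : Prg} {Nv z v : ℕ} (h : Run Nv p (sg z) (Function.update (sg z) 1 v))
    (hv : v ≤ Nv) : Run Nv (nxt p) (sg z) (sg v) := by
  have h1 := run_clr Nv 0 _ (Function.update (sg z) 1 v) rfl
  have h2 := run_mv Nv 1 0 (by omega) v (Function.update (Function.update (sg z) 1 v) 0 0)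
    (by simp) (by simpa using hv)
  have h3 : Function.update (Function.update (Function.update (Function.update (sg z) 1 v) 0 0)
      1 0) 0 (Function.update (Function.update (sg z) 1 v) 0 0 0 + v) = sg v := by
    funext r
    by_cases h0 : r = 0
    · subst h0
      simp [sg]
    · by_cases h1 : r = 1
      · subst h1
        simp [sg]
      · simp [h0, h1, sg]
  rw [h3] at h2
  exact Run.seq h (Run.seq h1 h2)

/-- the initial value -/
def incs : ℕ → Prg
  | 0 => .skip
  | n + 1 => .seq (incs n) (.inc 0)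

theorem run_incs (Nv : ℕ) : ∀ n ≤ Nv, Run Nv (incs n) (fun _ => 0) (sg n) := by
  intro n
  induction n with
  | zero =>
    intro _
    have : sg 0 = fun _ => 0 := by
      funext r
      by_cases h0 : r = 0
      · subst h0; simp [sg]
      · simp [sg, h0]
    rw [this]
    exact Run.skip _
  | succ n ih =>
    intro hn
    have h1 := Run.inc (N := Nv) 0 (sg n) (by rw [sg_zero]; exact hn)
    have : Function.update (sg n) 0 (sg n 0 + 1) = sg (n + 1) := by
      rw [sg_zero]
      unfold sg
      rw [Function.update_idem]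
    rw [this] at h1
    exact Run.seq (ih (by omega)) h1

theorem rb_incs : ∀ n, rb (incs n) ≤ 1
  | 0 => le_rfl
  | n + 1 => max_le (rb_incs n) le_rfl

/-- the first step -/
theorem sim_start {Ub : ℕ} (hUb : 1 ≤ Ub) :
    Rch m K C e Ub (mach m K C e).init (stt m K C e 0 (fun _ => 0) 1 []) := by
  have hbl : ∀ r < K, (fun _ : ℕ => (0 : ℕ)) r < 2 ^ 1 := fun r _ => by norm_num
  have e1 : (mach m K C e).init = mc m K C e none (fun _ => bl K) 0 [] := rfl
  rw [e1]
  refine Rch.one (gd_mc (Nat.zero_le _) fun _ _ => rfl) ?_ (gd_stt hUb hbl)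
  rw [step_mc]
  show mc m K C e (some (fn m 0, true)) (Function.update (fun _ => bl K) 0 (some true, (bl K).2)) 0
    ([] ++ []) = _
  unfold stt
  rw [List.append_nil]
  congr 1
  funext j
  rw [Function.update_apply]
  split_ifs with h
  · subst h
    apply Prod.ext
    · exact (enc_zero le_rfl).symm
    · funext r
      simp [enc]
  · rw [enc_bl hbl (by omega)]

end code

/-- a machine which computes the iteration -/
theorem exists_machine {S : Type} {F L : ℕ → ℕ} {N : ℕ} (e : ℕ → Option S) (z0 : ℕ)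
    (hF : LS (fun ρ => F (ρ 0))) (hL : LS (fun ρ => L (ρ 0))) (hLN : ∀ z, L z ≤ N) :
    ∃ (M : Machine 1 S) (ct : ℕ) (G : ℕ → Cfg M → Prop),
      (∀ Ub c, G Ub c → (c.tape 0).head ≤ Ub ∧ ∀ j, Ub ≤ j → (c.tape 0).cell j = M.blank) ∧
      ∀ i Ub, (z0 + 2) ^ ct < 2 ^ Ub → (∀ j < i, (F^[j] z0 + 2) ^ ct < 2 ^ Ub) →
        ∃ τ, (M.conf τ).out = (List.range i).filterMap (fun j => e (L (F^[j] z0))) ∧
          ∀ t ≤ τ, G Ub (M.conf t) := by
  obtain ⟨cF, hFb, hFp⟩ := hF
  obtain ⟨PF, hPF⟩ := hFp (fun _ => 0) 1 2 (fun _ => by omega) (by omega) (fun _ => by omega)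
  have hq : ∀ n : ℕ, ∃ (c : ℕ) (P : Prg), ∀ (X : ℕ) (σ : ℕ → ℕ), 2 ≤ X →
      (∀ i : ℕ, σ ((fun _ => 0 : ℕ → ℕ) i) ≤ X) → (∀ r, 2 ≤ r → σ r = 0) → σ 1 = 0 →
        Run (X ^ c) P σ (Function.update σ 1 (if L (σ 0) = n then 1 else 0)) := by
    intro n
    have h1 : LS (fun ρ => if L (ρ 0) = n then 1 else 0) :=
      LS.ite (LSP.eq hL (LS.const n)) (LS.const 1) LS.zero
    obtain ⟨c, _, hp⟩ := h1
    obtain ⟨P, hP⟩ := hp (fun _ => 0) 1 2 (fun _ => by omega) (by omega) (fun _ => by omega)
    exact ⟨c, P, hP⟩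
  choose cL P hP using hq
  -- the constants
  obtain ⟨ct, hct⟩ : ∃ ct, ct = cF + (∑ n ∈ Finset.range (N + 1), cL n) + 1 := ⟨_, rfl⟩
  have hcL : ∀ n < N + 1, cL n ≤ ct := by
    intro n hn
    have := Finset.single_le_sum (f := cL) (fun i _ => Nat.zero_le _) (Finset.mem_range.2 hn)
    omega
  obtain ⟨K, hK⟩ : ∃ K, K = rb (nxt PF) + (∑ n ∈ Finset.range (N + 1), rb (P n)) + 2 := ⟨_, rfl⟩
  have hrbP : ∀ n < N + 1, rb (P n) ≤ K := by
    intro n hn
    have := Finset.single_le_sum (f := fun n => rb (P n)) (fun i _ => Nat.zero_le _)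
      (Finset.mem_range.2 hn)
    omega
  -- the code
  obtain ⟨a, ha⟩ : ∃ a, a = 0 + (comp (incs z0) 0).length := ⟨_, rfl⟩
  obtain ⟨b, hb⟩ : ∃ b, b = a + (seg K P (N + 1) a).length := ⟨_, rfl⟩
  obtain ⟨d, hd⟩ : ∃ d, d = b + (comp (nxt PF) b).length := ⟨_, rfl⟩
  obtain ⟨cl, hcl⟩ : ∃ cl : List Ins, cl = comp (incs z0) 0 ++ (seg K P (N + 1) a ++
    (comp (nxt PF) b ++ [.jmp a])) := ⟨_, rfl⟩
  obtain ⟨C, hC⟩ : ∃ C : ℕ → Ins, C = fun i => cl.getD i (.jmp 0) := ⟨_, rfl⟩
  have hAt : At C 0 cl := by
    intro i hi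
    rw [hC, Nat.zero_add]
    exact List.getD_eq_getElem _ _ hi
  rw [hcl] at hAt
  have hA1 := hAt.left
  have hA2 := hAt.right
  rw [← ha] at hA2
  have hA3 := hA2.left
  have hA4 := hA2.right
  rw [← hb] at hA4
  have hA5 := hA4.left
  have hA6 := hA4.right
  rw [← hd] at hA6
  have hC6 := hA6.head
  obtain ⟨m, hm⟩ : ∃ m, m = d + 1 := ⟨_, rfl⟩
  have hKrb : rb (nxt PF) ≤ K := by omega
  have hK2 : 2 ≤ K := by omega
  have hKi : rb (incs z0) ≤ K := (rb_incs z0).trans (by omega)
  -- one period
  have period : ∀ z Ub U (o : List S), (z + 2) ^ ct < 2 ^ Ub → 1 ≤ U → U ≤ Ub →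
      (∀ r < K, sg z r < 2 ^ U) → ∃ U', 1 ≤ U' ∧ U' ≤ Ub ∧ (∀ r < K, sg (F z) r < 2 ^ U') ∧
        Rch m K C e Ub (stt m K C e a (sg z) U o)
          (stt m K C e a (sg (F z)) U' (o ++ (e (L z)).toList)) := by
    intro z Ub U o hUb hU1 hU hσ
    have hX : 2 ≤ z + 2 := by omega
    have hz0 : ∀ i : ℕ, sg z ((fun _ => 0 : ℕ → ℕ) i) ≤ z + 2 := by
      intro i
      show sg z 0 ≤ _
      rw [sg_zero]
      omega
    have hz1 : ∀ r, 2 ≤ r → sg z r = 0 := fun r hr => sg_pos z r (by omega)
    obtain ⟨U1, k1, k2, k3, k4⟩ := sim_seg (m := m) (C := C) (e := e) (L := L) (z := z) hUb a hK2 o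
      (N + 1) hrbP (by
        intro n hn
        have h1 := hP n (z + 2) (sg z) hX hz0 hz1 (sg_pos z 1 (by omega))
        rw [sg_zero] at h1
        exact h1.mono (Nat.pow_le_pow_right (by omega) (hcL n hn))) hA3 (by omega) U hU1 hU hσ
    rw [← hb, if_pos (Nat.lt_succ_of_le (hLN z))] at k4
    have h2 := hPF (z + 2) (sg z) hX hz0 hz1 (sg_pos z 1 (by omega))
    have h3 : F (sg z 0) = F z := by rw [sg_zero]
    simp only [h3] at h2
    have h4 : (z + 2) ^ cF ≤ (z + 2) ^ ct := Nat.pow_le_pow_right (by omega) (by omega)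
    have h5 : F z ≤ (z + 2) ^ ct := by
      have := hFb (z + 2) hX (fun _ => z) (fun _ => by omega)
      exact this.trans h4
    have h6 := run_nxt (h2.mono h4) h5
    obtain ⟨U2, l1, l2, l3, l4⟩ := sim_prg (m := m) (C := C) (e := e) hUb h6 hA5 (by omega)
      hKrb k1 k2 k3 (o ++ (e (L z)).toList)
    rw [← hd] at l4
    have h7 := sim_jmp (m := m) (e := e) hC6 (by omega) l2 l3 (o ++ (e (L z)).toList)
    exact ⟨U2, l1, l2, l3, k4.trans (l4.trans h7)⟩
  refine ⟨mach m K C e, ct, Gd m K C e, fun Ub c h => h, ?_⟩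
  intro i Ub hUb hj
  have hUb1 : 1 ≤ Ub := by
    rcases Nat.eq_zero_or_pos Ub with h | h
    · rw [h] at hUb
      have : 1 ≤ (z0 + 2) ^ ct := Nat.one_le_pow _ _ (by omega)
      omega
    · exact h
  have key : ∀ i, (∀ j < i, (F^[j] z0 + 2) ^ ct < 2 ^ Ub) → ∃ U, 1 ≤ U ∧ U ≤ Ub ∧
      (∀ r < K, sg (F^[i] z0) r < 2 ^ U) ∧ Rch m K C e Ub (mach m K C e).init
        (stt m K C e a (sg (F^[i] z0)) U
          ((List.range i).filterMap (fun j => e (L (F^[j] z0))))) := by
    intro i
    induction i with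
    | zero =>
      intro _
      have h1 : z0 ≤ (z0 + 2) ^ ct := by
        calc z0 ≤ (z0 + 2) ^ 1 := by rw [pow_one]; omega
          _ ≤ (z0 + 2) ^ ct := Nat.pow_le_pow_right (by omega) (by omega)
      obtain ⟨U, k1, k2, k3, k4⟩ := sim_prg (m := m) (K := K) (C := C) (e := e) hUb
        (run_incs _ z0 h1) hA1 (by omega) hKi le_rfl hUb1 (fun r _ => by norm_num) ([] : List S)
      rw [← ha] at k4
      refine ⟨U, k1, k2, k3, ?_⟩
      exact (sim_start hUb1).trans k4
    | succ i ih =>
      intro hj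
      obtain ⟨U, k1, k2, k3, k4⟩ := ih fun j hj' => hj j (by omega)
      obtain ⟨U', l1, l2, l3, l4⟩ := period _ Ub U
        ((List.range i).filterMap (fun j => e (L (F^[j] z0)))) (hj i (by omega)) k1 k2 k3
      rw [← Function.iterate_succ_apply' F i z0] at l3 l4
      refine ⟨U', l1, l2, l3, ?_⟩
      have : (List.range (i + 1)).filterMap (fun j => e (L (F^[j] z0))) =
          (List.range i).filterMap (fun j => e (L (F^[j] z0))) ++ (e (L (F^[i] z0))).toList := by
        rw [List.range_succ, List.filterMap_append]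
        rfl
      rw [this]
      exact k4.trans l4
  obtain ⟨U, _, _, _, τ, h1, h2⟩ := key i hj
  refine ⟨τ, ?_, h2⟩
  show ((mach m K C e).step^[τ] (mach m K C e).init).out = _
  rw [h1]
  rfl

theorem out_mono {k : ℕ} {S : Type} (M : Machine k S) {t t' : ℕ} (h : t ≤ t') :
    (M.conf t).out <+: (M.conf t').out := by
  induction h with
  | refl => exact ⟨[], List.append_nil _⟩
  | step _ ih =>
    rename_i t'
    refine ih.trans ?_
    unfold Machine.conf
    rw [Function.iterate_succ_apply']
    exact ⟨_, rfl⟩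

theorem gen : SGen := by
  intro S F L N e z0 w s hF hL hLN hpre hlen hs
  obtain ⟨M, ct, G, hG, hM⟩ := exists_machine e z0 hF hL hLN
  obtain ⟨O, hO⟩ : ∃ O : ℕ → List S,
    O = fun i => (List.range i).filterMap (fun j => e (L (F^[j] z0))) := ⟨_, rfl⟩
  have hO' : ∀ i, (List.range i).filterMap (fun j => e (L (F^[j] z0))) = O i := fun i => by
    rw [hO]
  simp only [hO'] at hpre hlen hs hM
  have hlarge : ∀ i, ∃ τ, (M.conf τ).out = O i := by
    intro i
    obtain ⟨Ub, hUb⟩ : ∃ Ub, Ub = ∑ j ∈ Finset.range (i + 1), (F^[j] z0 + 2) ^ ct := ⟨_, rfl⟩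
    have h1 : ∀ j < i + 1, (F^[j] z0 + 2) ^ ct < 2 ^ Ub := by
      intro j hj
      have := Finset.single_le_sum (f := fun j => (F^[j] z0 + 2) ^ ct)
        (fun i _ => Nat.zero_le _) (Finset.mem_range.2 hj)
      rw [← hUb] at this
      exact this.trans_lt Nat.lt_two_pow_self
    obtain ⟨τ, h2, _⟩ := hM i Ub (h1 0 (by omega)) fun j hj => h1 j (by omega)
    exact ⟨τ, h2⟩
  have hgen : M.Generates w := by
    constructor
    · intro t
      obtain ⟨i, hi⟩ := hlen ((M.conf t).out.length + 1)
      obtain ⟨τ, hτ⟩ := hlarge i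
      have h1 : t ≤ τ := by
        by_contra hcon
        have := (out_mono M (show τ ≤ t by omega)).length_le
        rw [hτ] at this
        omega
      have h2 := out_mono M h1
      rw [hτ] at h2
      obtain ⟨r, hr⟩ := h2
      intro j hj
      have h3 := hpre i j (by rw [← hr, List.length_append]; omega)
      rw [← h3]
      simp only [← hr]
      rw [List.getElem_append_left]
    · intro n
      obtain ⟨i, hi⟩ := hlen n
      obtain ⟨τ, hτ⟩ := hlarge i
      exact ⟨τ, by rw [hτ]; exact hi⟩
  refine ⟨1, M, ((ct : ℝ) + 2) / Real.log 2, hgen, ?_⟩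
  intro n hn
  classical
  obtain ⟨i, hi1, hi2⟩ : ∃ i, n ≤ (O i).length ∧ ∀ j < i, (O j).length < n := by
    refine ⟨Nat.find (hlen n), Nat.find_spec (hlen n), ?_⟩
    intro j hj
    have := Nat.find_min (hlen n) hj
    omega
  have hi0 : 0 < i := by
    rcases Nat.eq_zero_or_pos i with h | h
    · rw [h, hO] at hi1
      simp at hi1
      omega
    · exact h
  have hlog2 : 0 < Real.log 2 := Real.log_pos (by norm_num)
  have hsj : ∀ j < i, Real.log ((F^[j] z0 : ℕ) + 2) ≤ s n := fun j hj => hs n hn j (hi2 j hj)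
  have hs2 : Real.log 2 ≤ s n := by
    refine le_trans ?_ (hsj 0 hi0)
    apply Real.log_le_log (by norm_num)
    have : (0 : ℝ) ≤ ((F^[0] z0 : ℕ) : ℝ) := Nat.cast_nonneg _
    linarith
  obtain ⟨Ub, hUb⟩ : ∃ Ub, Ub = ⌊(ct : ℝ) * s n / Real.log 2⌋₊ + 1 := ⟨_, rfl⟩
  have hsn : 0 ≤ s n := hlog2.le.trans hs2
  have hct0 : (0 : ℝ) ≤ ct := Nat.cast_nonneg _
  have h1 : (ct : ℝ) * s n < Ub * Real.log 2 := by
    have := Nat.lt_floor_add_one ((ct : ℝ) * s n / Real.log 2)
    rw [div_lt_iff₀ hlog2] at this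
    rw [hUb]
    push_cast
    exact this
  have h2 : (Ub : ℝ) < ((ct : ℝ) + 2) / Real.log 2 * s n := by
    have h3 : ((⌊(ct : ℝ) * s n / Real.log 2⌋₊ : ℕ) : ℝ) ≤ (ct : ℝ) * s n / Real.log 2 :=
      Nat.floor_le (by positivity)
    have h4 : (1 : ℝ) ≤ s n / Real.log 2 := by
      rw [le_div_iff₀ hlog2, one_mul]
      exact hs2
    have h5 : ((ct : ℝ) + 2) / Real.log 2 * s n =
        (ct : ℝ) * s n / Real.log 2 + s n / Real.log 2 + s n / Real.log 2 := by ring
    rw [h5, hUb]
    push_cast
    linarith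
  have h3 : ∀ j < i, (F^[j] z0 + 2) ^ ct < 2 ^ Ub := by
    intro j hj
    by_contra hcon
    have h4 : 2 ^ Ub ≤ (F^[j] z0 + 2) ^ ct := Nat.le_of_not_lt hcon
    have h5 : (2 : ℝ) ^ Ub ≤ (((F^[j] z0 : ℕ) : ℝ) + 2) ^ ct := by exact_mod_cast h4
    have h6 := Real.log_le_log (by positivity) h5
    rw [Real.log_pow, Real.log_pow] at h6
    have h7 := mul_le_mul_of_nonneg_left (hsj j hj) hct0
    linarith
  obtain ⟨τ, hτ, hGd⟩ := hM i Ub (h3 0 hi0) h3
  have hT : M.T n ≤ τ := T_le (by rw [hτ]; exact hi1)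
  intro t ht k
  have hk : k = 0 := Subsingleton.elim _ _
  rw [hk]
  obtain ⟨g1, g2⟩ := hG Ub _ (hGd t (ht.trans hT))
  constructor
  · have : (((M.conf t).tape 0).head : ℝ) ≤ Ub := by exact_mod_cast g1
    exact this.trans_lt h2
  · intro j hj
    apply g2 j
    have : (Ub : ℝ) < j := h2.trans_le hj
    exact_mod_cast this.le

end Pool.Agent.TH644.RM
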